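import Pool.Agent.H.MP_5a76a9_gt.Top

namespace Pool.Agent.Results.MP_5a76a9_gt.Q1Fell
open Pool.Agent.H.MP_5a76a9_gt

theorem result : @Topology.IsEmbedding Pyr FF weakTop fell incl := emb_fell

end Pool.Agent.Results.MP_5a76a9_gt.Q1Fell
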